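import Pool.Agent.Run7.h356.LP.Stm

/-!
Piece APX of helper356's project (MP_85210c_gt): approximation of subspaces of `L_p[0,1]` by
subspaces spanned by simple functions.
-/

set_option autoImplicit false

noncomputable section

open MeasureTheory Filter Topology Set
open scoped BigOperators Matrix ENNReal Pointwise

namespace Run7.h669.LP

open H712MA H356LP

/-- if only `0` is orthogonal to all `l k`, some `n` of them are a basis -/
theorem spans_of {κ : Type} {n : ℕ} (l : κ → Fin n → ℝ)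
    (h : ∀ x : Fin n → ℝ, (∀ k, l k ⬝ᵥ x = 0) → x = 0) : Spans l := by
  have htop : Submodule.span ℝ (Set.range l) = ⊤ := by
    by_contra hne
    obtain ⟨φ, hφ0, hφ⟩ := Submodule.exists_le_ker_of_lt_top _ (lt_top_iff_ne_top.2 hne)
    apply hφ0
    set w : Fin n → ℝ := fun i => φ (fun j => if i = j then 1 else 0) with hw
    have hx : ∀ x : Fin n → ℝ, φ x = x ⬝ᵥ w := by
      intro x
      rw [LinearMap.pi_apply_eq_sum_univ φ x]
      rfl
    have h0 : w = 0 := by
      apply h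
      intro k
      rw [← hx]
      have : l k ∈ Submodule.span ℝ (Set.range l) := Submodule.subset_span ⟨k, rfl⟩
      exact hφ this
    ext x
    simp [hx, h0]
  obtain ⟨κ', a, ha, hsp, hli⟩ := exists_linearIndependent' ℝ l
  rw [htop] at hsp
  let b := Module.Basis.mk hli hsp.ge
  have : Finite κ' := Module.Finite.finite_basis b
  have := Fintype.ofFinite κ'
  have hc : Fintype.card κ' = Fintype.card (Fin n) := by
    have := Module.finrank_eq_card_basis b
    rw [Module.finrank_fin_fun] at this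
    rw [Fintype.card_fin, ← this]
  let e : Fin n ≃ κ' := (Fintype.equivOfCardEq hc).symm
  refine ⟨fun i => a (e i), ?_⟩
  have hli2 : LinearIndependent ℝ (fun i : Fin n => l (a (e i))) := hli.comp e e.injective
  have hrow : LinearIndependent ℝ (Matrix.of fun i j => l (a (e i)) j).row := hli2
  rw [Matrix.linearIndependent_rows_iff_isUnit, Matrix.isUnit_iff_isUnit_det] at hrow
  exact hrow.ne_zero

/-- comparison of two gauges -/
theorem compare (n : ℕ) (g g' : (Fin n → ℝ) → ℝ) (hg : ∀ (c : ℝ) x, 0 ≤ c → g (c • x) = c * g x)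
    (hg' : ∀ (c : ℝ) x, 0 ≤ c → g' (c • x) = c * g' x) (η : ℝ) (h0 : 0 < η) (h1 : η < 1)
    (hl : ∀ x, (1 - η) * g x ≤ g' x) (hu : ∀ x, g' x ≤ (1 + η) * g x) :
    volume {x | g' x ≤ 1} * volume (PP {x | g' x ≤ 1}) ≤
      ENNReal.ofReal (((1 + η) / (1 - η)) ^ n) *
        (volume {x | g x ≤ 1} * volume (PP {x | g x ≤ 1})) := by
  have hm : 0 < 1 - η := by linarith
  have hp : 0 < 1 + η := by linarith
  have hs1 : {x | g' x ≤ 1} ⊆ (1 - η)⁻¹ • {x | g x ≤ 1} := by
    intro x hx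
    rw [Set.mem_smul_set_iff_inv_smul_mem₀ (inv_ne_zero hm.ne'), inv_inv]
    show g ((1 - η) • x) ≤ 1
    rw [hg _ _ hm.le]
    exact (hl x).trans hx
  have hs2 : PP {x | g' x ≤ 1} ⊆ (1 + η) • PP {x | g x ≤ 1} := by
    intro y hy
    rw [Set.mem_smul_set_iff_inv_smul_mem₀ hp.ne']
    intro x hx
    have hx1 : (1 + η)⁻¹ • x ∈ {x | g' x ≤ 1} := by
      show g' ((1 + η)⁻¹ • x) ≤ 1
      rw [hg' _ _ (inv_nonneg.2 hp.le)]
      have := (hu x).trans (mul_le_mul_of_nonneg_left hx hp.le)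
      rw [mul_one] at this
      calc (1 + η)⁻¹ * g' x ≤ (1 + η)⁻¹ * (1 + η) := by gcongr
        _ = 1 := inv_mul_cancel₀ hp.ne'
    have h2 := hy _ hx1
    refine le_of_eq_of_le (Finset.sum_congr rfl fun i _ => ?_) h2
    simp only [Pi.smul_apply, smul_eq_mul]
    ring
  have hv1 : volume {x | g' x ≤ 1} ≤ ENNReal.ofReal ((1 - η)⁻¹ ^ n) * volume {x | g x ≤ 1} := by
    refine (measure_mono hs1).trans (le_of_eq ?_)
    rw [Measure.addHaar_smul, Module.finrank_fin_fun, abs_of_pos (pow_pos (inv_pos.2 hm) n)]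
  have hv2 : volume (PP {x | g' x ≤ 1}) ≤
      ENNReal.ofReal ((1 + η) ^ n) * volume (PP {x | g x ≤ 1}) := by
    refine (measure_mono hs2).trans (le_of_eq ?_)
    rw [Measure.addHaar_smul, Module.finrank_fin_fun, abs_of_pos (pow_pos hp n)]
  refine (mul_le_mul' hv1 hv2).trans (le_of_eq ?_)
  have : ENNReal.ofReal (((1 + η) / (1 - η)) ^ n) =
      ENNReal.ofReal ((1 - η)⁻¹ ^ n) * ENNReal.ofReal ((1 + η) ^ n) := by
    rw [← ENNReal.ofReal_mul (by positivity), div_pow, div_eq_mul_inv, inv_pow, mul_comm]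
  rw [this]
  ring

/-- the integral of `|s · x|^p` for a simple function `s` -/
theorem int_simple (n : ℕ) (p : ℝ) (hp : 1 < p) (μ : Measure ℝ) [IsFiniteMeasure μ]
    (s : SimpleFunc ℝ (Fin n → ℝ)) (x : Fin n → ℝ) :
    (eLpNorm (fun ω => s ω ⬝ᵥ x) (ENNReal.ofReal p) μ).toReal ^ p =
      ∑ v ∈ s.range, μ.real (s ⁻¹' {v}) * |v ⬝ᵥ x| ^ p := by
  have hp0 : 0 < p := by linarith
  have hpe : ENNReal.ofReal p ≠ 0 := by simpa using hp0
  rw [eLpNorm_eq_lintegral_rpow_enorm_toReal hpe ENNReal.ofReal_ne_top,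
    ENNReal.toReal_ofReal hp0.le, ← ENNReal.toReal_rpow, ← Real.rpow_mul ENNReal.toReal_nonneg,
    one_div, inv_mul_cancel₀ hp0.ne', Real.rpow_one]
  have h1 : ∫⁻ ω, ‖s ω ⬝ᵥ x‖ₑ ^ p ∂μ =
      ∑ v ∈ s.range, ‖v ⬝ᵥ x‖ₑ ^ p * μ (s ⁻¹' {v}) := by
    rw [← SimpleFunc.map_lintegral (fun v : Fin n → ℝ => ‖v ⬝ᵥ x‖ₑ ^ p) s,
      ← SimpleFunc.lintegral_eq_lintegral]
    rfl
  rw [h1, ENNReal.toReal_sum]
  · refine Finset.sum_congr rfl fun v _ => ?_
    rw [ENNReal.toReal_mul, mul_comm, ← ENNReal.toReal_rpow, toReal_enorm, Real.norm_eq_abs]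
    rfl
  · intro v _
    exact ENNReal.mul_ne_top (ENNReal.rpow_ne_top_of_nonneg hp0.le enorm_ne_top)
      (measure_ne_top _ _)

/-- the choice of `η` -/
theorem exists_eta (n : ℕ) (ε : ℝ) (hε : 0 < ε) :
    ∃ η : ℝ, 0 < η ∧ η < 1 ∧ ((1 + η) / (1 - η)) ^ n ≤ 1 + ε := by
  have hc : ContinuousAt (fun η : ℝ => ((1 + η) / (1 - η)) ^ n) 0 := by
    apply ContinuousAt.pow
    apply ContinuousAt.div
    · exact (continuous_const.add continuous_id).continuousAt
    · exact (continuous_const.sub continuous_id).continuousAt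
    · norm_num
  have h1 : ∀ᶠ η in 𝓝 (0 : ℝ), ((1 + η) / (1 - η)) ^ n < 1 + ε := by
    apply hc.eventually (gt_mem_nhds _)
    simp [hε]
  have h2 : ∀ᶠ η in 𝓝[>] (0 : ℝ), ((1 + η) / (1 - η)) ^ n < 1 + ε := h1.filter_mono nhdsWithin_le_nhds
  have h3 : ∀ᶠ η in 𝓝[>] (0 : ℝ), η ∈ Ioo (0 : ℝ) 1 := Ioo_mem_nhdsGT one_pos
  obtain ⟨η, ha, hb⟩ := (h2.and h3).exists
  exact ⟨η, hb.1, hb.2, ha.le⟩

theorem apx_aux (n : ℕ) (p : ℝ) (hp : 1 < p) (μ : Measure ℝ) [IsFiniteMeasure μ]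
    (f : Fin n → Lp ℝ (ENNReal.ofReal p) μ) (hf : LinearIndependent ℝ f) (ε : ℝ) (hε : 0 < ε) :
    ∃ (κ : Type) (_ : Fintype κ) (l : κ → Fin n → ℝ), Spans l ∧ (∀ k, l k ≠ 0) ∧
      volume (KK p l) * volume (PP (KK p l)) ≤
        ENNReal.ofReal (1 + ε) * (volume {x : Fin n → ℝ | ‖∑ i, x i • f i‖ ≤ 1} *
          volume (PP {x : Fin n → ℝ | ‖∑ i, x i • f i‖ ≤ 1})) := by
  have hp0 : 0 < p := by linarith
  have hfact : Fact (1 ≤ ENNReal.ofReal p) := ⟨by rw [ENNReal.one_le_ofReal]; exact hp.le⟩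
  have hpt : ENNReal.ofReal p ≠ ∞ := ENNReal.ofReal_ne_top
  -- antilipschitz
  let T : (Fin n → ℝ) →ₗ[ℝ] Lp ℝ (ENNReal.ofReal p) μ := Fintype.linearCombination ℝ f
  have hT : ∀ x, T x = ∑ i, x i • f i := fun x => Fintype.linearCombination_apply ℝ f x
  have hker : LinearMap.ker T = ⊥ := by
    rw [LinearMap.ker_eq_bot]
    exact linearIndependent_iff_injective_fintypeLinearCombination.1 hf
  obtain ⟨K, hK0, hK⟩ := T.exists_antilipschitzWith hker
  have hb : ∀ x : Fin n → ℝ, ‖x‖ ≤ K * ‖∑ i, x i • f i‖ := by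
    intro x
    have := hK.le_mul_dist x 0
    rwa [dist_zero_right, map_zero, dist_zero_right, hT] at this
  set C : ℝ := n * K + 1 with hCdef
  have hCpos : 0 < C := by positivity
  have hC : ∀ x : Fin n → ℝ, ∑ i, |x i| ≤ C * ‖∑ i, x i • f i‖ := by
    intro x
    have h1 : ∑ i, |x i| ≤ n * ‖x‖ := by
      calc ∑ i, |x i| ≤ ∑ _i : Fin n, ‖x‖ := Finset.sum_le_sum fun i _ => norm_le_pi_norm x i
        _ = n * ‖x‖ := by simp
    have h2 := mul_le_mul_of_nonneg_left (hb x) (Nat.cast_nonneg (α := ℝ) n)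
    have h3 := norm_nonneg (∑ i, x i • f i)
    rw [hCdef]
    nlinarith
  obtain ⟨η, h0, h1, hη⟩ := exists_eta n ε hε
  let F : ℝ → Fin n → ℝ := fun ω i => f i ω
  have hF : MemLp F (ENNReal.ofReal p) μ := memLp_pi_iff.2 fun i => Lp.memLp (f i)
  have hηC : 0 < η / C := div_pos h0 hCpos
  obtain ⟨s, hs, hsm⟩ := hF.exists_simpleFunc_eLpNorm_sub_lt hpt (ε := ENNReal.ofReal (η / C))
    (by simpa using hηC)
  have hsi : ∀ i, MemLp (fun ω => s ω i) (ENNReal.ofReal p) μ := fun i => memLp_pi_iff.1 hsm i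
  let S : Fin n → Lp ℝ (ENNReal.ofReal p) μ := fun i => (hsi i).toLp
  have hSi : ∀ i, ‖f i - S i‖ ≤ η / C := by
    intro i
    rw [Lp.norm_def]
    refine ENNReal.toReal_le_of_le_ofReal hηC.le (le_trans ?_ hs.le)
    have h2 : (f i - S i : Lp ℝ (ENNReal.ofReal p) μ) =ᵐ[μ] fun ω => f i ω - s ω i := by
      filter_upwards [Lp.coeFn_sub (f i) (S i), (hsi i).coeFn_toLp] with ω ha hb
      rw [ha, Pi.sub_apply, hb]
    rw [eLpNorm_congr_ae h2]
    refine eLpNorm_mono fun ω => ?_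
    exact norm_le_pi_norm ((F - s) ω) i
  have hsum : ∀ x : Fin n → ℝ, ‖∑ i, x i • S i‖ =
      (eLpNorm (fun ω => s ω ⬝ᵥ x) (ENNReal.ofReal p) μ).toReal := by
    intro x
    rw [Lp.norm_def]
    congr 1
    apply eLpNorm_congr_ae
    have h3 : ∀ᵐ ω ∂μ, ∀ i, (x i • S i : Lp ℝ (ENNReal.ofReal p) μ) ω = x i * s ω i := by
      rw [ae_all_iff]
      intro i
      filter_upwards [Lp.coeFn_smul (x i) (S i), (hsi i).coeFn_toLp] with ω ha hb
      rw [ha, Pi.smul_apply, hb, smul_eq_mul]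
    filter_upwards [Lp.coeFn_finsetSum Finset.univ (fun i => x i • S i), h3] with ω ha hb
    rw [ha, dotProduct]
    simp only [Finset.sum_apply, hb]
    exact Finset.sum_congr rfl fun i _ => mul_comm _ _
  set g : (Fin n → ℝ) → ℝ := fun x => ‖∑ i, x i • f i‖ with hg
  set g' : (Fin n → ℝ) → ℝ := fun x => ‖∑ i, x i • S i‖ with hg'
  have hdiff : ∀ x, |g x - g' x| ≤ η * g x := by
    intro x
    have h4 : ‖∑ i, x i • f i - ∑ i, x i • S i‖ ≤ ∑ i, |x i| * (η / C) := by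
      rw [← Finset.sum_sub_distrib]
      refine (norm_sum_le _ _).trans (Finset.sum_le_sum fun i _ => ?_)
      rw [← smul_sub, norm_smul, Real.norm_eq_abs]
      exact mul_le_mul_of_nonneg_left (hSi i) (abs_nonneg _)
    refine (abs_norm_sub_norm_le _ _).trans (h4.trans ?_)
    rw [← Finset.sum_mul]
    calc (∑ i, |x i|) * (η / C) ≤ (C * g x) * (η / C) := by
          apply mul_le_mul_of_nonneg_right (hC x) hηC.le
      _ = η * g x := by field_simp
  have hl : ∀ x, (1 - η) * g x ≤ g' x := by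
    intro x
    have := (abs_le.1 (hdiff x)).2
    linarith
  have hu : ∀ x, g' x ≤ (1 + η) * g x := by
    intro x
    have := (abs_le.1 (hdiff x)).1
    linarith
  have hghom : ∀ (c : ℝ) x, 0 ≤ c → g (c • x) = c * g x := by
    intro c x hc
    simp only [hg, Pi.smul_apply, smul_eq_mul, mul_smul]
    rw [← Finset.smul_sum, norm_smul, Real.norm_eq_abs, abs_of_nonneg hc]
  have hghom' : ∀ (c : ℝ) x, 0 ≤ c → g' (c • x) = c * g' x := by
    intro c x hc
    simp only [hg', Pi.smul_apply, smul_eq_mul, mul_smul]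
    rw [← Finset.smul_sum, norm_smul, Real.norm_eq_abs, abs_of_nonneg hc]
  -- the forms
  let A : Finset (Fin n → ℝ) := s.range.filter (fun v => v ≠ 0 ∧ μ.real (s ⁻¹' {v}) ≠ 0)
  let l : A → Fin n → ℝ := fun v => (μ.real (s ⁻¹' {v.1}) ^ (1 / p)) • v.1
  have hlx : ∀ x, ∑ k, |l k ⬝ᵥ x| ^ p = g' x ^ p := by
    intro x
    have h16 : g' x = _ := hsum x
    rw [h16, int_simple n p hp μ s x]
    have h5 : ∑ k : A, |l k ⬝ᵥ x| ^ p = ∑ v ∈ A, μ.real (s ⁻¹' {v}) * |v ⬝ᵥ x| ^ p := by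
      rw [← Finset.sum_coe_sort A]
      refine Finset.sum_congr rfl fun v _ => ?_
      simp only [l, smul_dotProduct, smul_eq_mul, abs_mul]
      rw [Real.mul_rpow (abs_nonneg _) (abs_nonneg _), abs_of_nonneg (by positivity),
        ← Real.rpow_mul measureReal_nonneg, one_div, inv_mul_cancel₀ hp0.ne', Real.rpow_one]
    rw [h5]
    apply Finset.sum_subset (Finset.filter_subset _ _)
    intro v hv hvA
    rw [Finset.mem_filter, not_and, not_and_or, not_not, not_not] at hvA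
    rcases hvA hv with h6 | h6
    · rw [h6, zero_dotProduct, abs_zero, Real.zero_rpow hp0.ne', mul_zero]
    · rw [h6, zero_mul]
  have hg'0 : ∀ x, 0 ≤ g' x := fun x => norm_nonneg _
  have hKK : KK p l = {x | g' x ≤ 1} := by
    ext x
    show ∑ k, |l k ⬝ᵥ x| ^ p ≤ 1 ↔ g' x ≤ 1
    rw [hlx x]
    constructor
    · intro h
      by_contra hlt
      push Not at hlt
      exact absurd h (not_le.2 (Real.one_lt_rpow hlt hp0))
    · intro h
      exact Real.rpow_le_one (hg'0 x) h hp0.le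
  refine ⟨A, inferInstance, l, ?_, ?_, ?_⟩
  · apply spans_of
    intro x hx
    have h7 : g' x ^ p = 0 := by
      rw [← hlx x]
      apply Finset.sum_eq_zero
      intro k _
      rw [hx k, abs_zero, Real.zero_rpow hp0.ne']
    have h8 : g' x = 0 := by
      rcases (Real.rpow_eq_zero_iff_of_nonneg (hg'0 x)).1 h7 with ⟨h9, _⟩
      exact h9
    have h9 : g x ≤ 0 := by
      have := hl x
      rw [h8] at this
      by_contra hpos
      push Not at hpos
      have := mul_pos (sub_pos.2 h1) hpos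
      linarith
    have h10 : ∑ i, |x i| ≤ 0 := by
      have := hC x
      have h11 : C * g x ≤ 0 := mul_nonpos_of_nonneg_of_nonpos hCpos.le h9
      exact this.trans h11
    ext i
    have h12 : |x i| ≤ ∑ i, |x i| := Finset.single_le_sum (fun j _ => abs_nonneg (x j)) (Finset.mem_univ i)
    exact abs_nonpos_iff.1 (h12.trans h10)
  · intro k hk
    have hkA := (Finset.mem_filter.1 k.2).2
    have h13 : μ.real (s ⁻¹' {k.1}) ^ (1 / p) ≠ 0 := by
      have h14 : 0 < μ.real (s ⁻¹' {k.1}) := lt_of_le_of_ne measureReal_nonneg (Ne.symm hkA.2)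
      positivity
    rcases smul_eq_zero.1 hk with h15 | h15
    · exact h13 h15
    · exact hkA.1 h15
  · rw [hKK]
    refine (compare n g g' hghom hghom' η h0 h1 hl hu).trans ?_
    exact mul_le_mul' (ENNReal.ofReal_le_ofReal hη) le_rfl

theorem APX : S_APX := by
  intro n p hp f hf ε hε
  have hfin : IsFiniteMeasure ((volume : Measure ℝ).restrict (Icc (0:ℝ) 1)) := by
    constructor
    rw [Measure.restrict_apply_univ, Real.volume_Icc]
    exact ENNReal.ofReal_lt_top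
  exact apx_aux n p hp _ f hf ε hε

end Run7.h669.LP
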